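import Pool.Agent.H37.SP.Stm

set_option autoImplicit false

namespace Pool.Agent.H78.SP

open Finset Pool.Agent.H37.SP

/-- a residue hit gives a solution -/
theorem hit_solution (hSOL : S_SOL) {s t p k : ℕ} (ht : 2 ≤ t) (hp : p ∈ PP s t)
    (hk : Y s t ^ 2 + Y s t + 2 ≤ k) (hr : (k - 2) % p ∈ Res s t p) :
    ∃ u ∈ solSet k, ∃ c ∈ u, (∀ a ∈ u, a ≤ c) ∧ u.prod = (p + 1) * c := by
  classical
  have hp' := hp
  rw [PP, Finset.mem_filter, Finset.mem_Ioc] at hp'
  obtain ⟨⟨-, hpY⟩, hpp⟩ := hp'
  rw [Res, Finset.mem_filter] at hr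
  obtain ⟨-, a, ha, hdvd⟩ := hr
  rw [Tup, Finset.mem_filter] at ha
  obtain ⟨haB, hadvd⟩ := ha
  rw [Box, Fintype.mem_piFinset] at haB
  have hprod : ((Finset.univ : Finset (Fin s)).val.map a).prod = prd a := rfl
  have hsum : (((Finset.univ : Finset (Fin s)).val.map a).map (fun a => a - 1)).sum = sg a := by
    rw [Multiset.map_map]; rfl
  apply hSOL k p ((Finset.univ : Finset (Fin s)).val.map a)
  · intro x hx
    rw [Multiset.mem_map] at hx
    obtain ⟨i, -, rfl⟩ := hx
    have h1 := (Finset.mem_Icc.mp (haB i)).1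
    have h2 : t ≤ T t i := Nat.le_self_pow (by positivity) t
    omega
  · exact hpp.two_le
  · rw [hprod]; exact hadvd
  · have h1 : p ^ 2 ≤ Y s t ^ 2 := Nat.pow_le_pow_left hpY 2
    omega
  · rw [hprod, hsum]
    have h1 : k - 2 = p * ((k - 2) / p) + (k - 2) % p := (Nat.div_add_mod (k - 2) p).symm
    rw [h1, Nat.add_assoc, Nat.add_assoc]
    refine (Nat.dvd_add_right (Dvd.intro _ rfl)).mpr ?_
    rw [← Nat.add_assoc]
    exact hdvd

theorem t_CMB (hSOL : S_SOL) (hNGE : S_NGE) (hCLS : S_CLS) (hMOM : S_MOM) (hGRE : S_GRE) :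
    S_CMB := by
  classical
  intro s t M r X hs ht L hL hsum
  have hz : ∀ p ∈ PP s t, 0 ≤ ((Res s t p).card : ℝ) / p ∧ ((Res s t p).card : ℝ) / p ≤ 1 := by
    intro p hp
    have hc : (Res s t p).card ≤ p := by
      have : Res s t p ⊆ range p := by
        unfold Res; exact Finset.filter_subset _ _
      simpa using Finset.card_le_card this
    refine ⟨by positivity, div_le_one_of_le₀ (by exact_mod_cast hc) (by positivity)⟩
  have hsum' : (((M + 1) * r : ℕ) : ℝ) * (L + 1) ≤
      ∑ p ∈ PP s t, ((Res s t p).card : ℝ) / p := by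
    refine hsum.trans (le_of_eq ?_)
    apply Finset.sum_congr rfl
    intro p hp
    rw [hCLS s t p hs ht hp]
  obtain ⟨Bk, hsub, hdis, hBk⟩ := hGRE (PP s t) (fun p => ((Res s t p).card : ℝ) / p) hz L
    (by linarith) ((M + 1) * r) hsum'
  set blk : Fin (M + 1) → Fin r → Finset ℕ := fun i j => Bk (finProdFinEquiv (i, j)) with hblk
  have hblkdis : ∀ i j i' j', (i, j) ≠ (i', j') → Disjoint (blk i j) (blk i' j') := by
    intro i j i' j' h
    apply hdis
    intro he
    exact h (finProdFinEquiv.injective he)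
  have hPPp : ∀ p ∈ PP s t, p.Prime ∧ p ≤ Y s t := by
    intro p hp
    rw [PP, Finset.mem_filter, Finset.mem_Ioc] at hp
    exact ⟨hp.2, hp.1.2⟩
  set E : Fin (M + 1) → Finset ℕ := fun i =>
    (range X).filter (fun k => ∀ j, ∀ p ∈ blk i j, k % p ∉ Res s t p) with hE
  have hEi : ∀ i, ((E i).card : ℝ) ≤ X / L ^ r + 2 * (Y s t : ℝ) ^ (4 * r) := by
    intro i
    refine hMOM r (Y s t) X (blk i) ?_ ?_ (Res s t) ?_ L hL ?_
    · intro j j' hjj
      exact hblkdis _ _ _ _ (by simpa using hjj)
    · intro j p hp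
      exact hPPp p (hsub _ hp)
    · intro j p hp
      unfold Res; exact Finset.filter_subset _ _
    · intro j
      exact hBk _
  have hkey : ∀ k, Y s t ^ 2 + Y s t + 2 ≤ k → N k ≤ M →
      ∃ i, ∀ j, ∀ p ∈ blk i j, (k - 2) % p ∉ Res s t p := by
    intro k hk hN
    by_contra hcon
    push Not at hcon
    choose j p hp hres using hcon
    have hinj : Function.Injective p := by
      intro i i' hii
      by_contra hne
      have hd := hblkdis i (j i) i' (j i') (fun h => hne (congrArg Prod.fst h))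
      have h1 := hp i
      have h2 := hp i'
      rw [← hii] at h2
      exact (Finset.disjoint_left.mp hd h1) h2
    have hcard : (Finset.univ.image p).card = M + 1 := by
      rw [Finset.card_image_of_injective _ hinj, Finset.card_univ, Fintype.card_fin]
    have hle := hNGE k (Finset.univ.image p) (by omega) (by
      intro q hq
      rw [Finset.mem_image] at hq
      obtain ⟨i, -, rfl⟩ := hq
      exact hit_solution hSOL ht (hsub _ (hp i)) hk (hres i))
    omega
  have hcover : (range X).filter (fun k => N k ≤ M) ⊆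
      range (Y s t ^ 2 + Y s t + 2) ∪
        (Finset.univ : Finset (Fin (M + 1))).biUnion (fun i => (E i).image (fun k => k + 2)) := by
    intro k hk
    rw [Finset.mem_filter, Finset.mem_range] at hk
    rw [Finset.mem_union]
    by_cases hkY : k < Y s t ^ 2 + Y s t + 2
    · left; exact Finset.mem_range.mpr hkY
    · right
      push Not at hkY
      obtain ⟨i, hi⟩ := hkey k hkY hk.2
      rw [Finset.mem_biUnion]
      refine ⟨i, Finset.mem_univ _, ?_⟩
      rw [Finset.mem_image]
      refine ⟨k - 2, ?_, by omega⟩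
      rw [hE]
      simp only [Finset.mem_filter, Finset.mem_range]
      exact ⟨by omega, hi⟩
  have hc1 := Finset.card_le_card hcover
  have hc2 := hc1.trans (Finset.card_union_le _ _)
  have hc3 : ((Finset.univ : Finset (Fin (M + 1))).biUnion
      (fun i => (E i).image (fun k => k + 2))).card ≤ ∑ i : Fin (M + 1), (E i).card := by
    refine Finset.card_biUnion_le.trans ?_
    exact Finset.sum_le_sum (fun i _ => Finset.card_image_le)
  have hc4 : ((range X).filter (fun k => N k ≤ M)).card ≤
      (Y s t ^ 2 + Y s t + 2) + ∑ i : Fin (M + 1), (E i).card := by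
    rw [Finset.card_range] at hc2
    omega
  have hc5 : (((range X).filter (fun k => N k ≤ M)).card : ℝ) ≤
      ((Y s t : ℝ) ^ 2 + Y s t + 2) + ∑ i : Fin (M + 1), ((E i).card : ℝ) := by
    exact_mod_cast hc4
  have hc6 : ∑ i : Fin (M + 1), ((E i).card : ℝ) ≤
      (M + 1) * (X / L ^ r + 2 * (Y s t : ℝ) ^ (4 * r)) := by
    refine (Finset.sum_le_sum (fun i _ => hEi i)).trans (le_of_eq ?_)
    rw [Finset.sum_const, Finset.card_univ, Fintype.card_fin, nsmul_eq_mul]
    push_cast
    ring
  linarith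

end Pool.Agent.H78.SP
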